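import Pool.Agent.Work.MP_b29d7f_ns.Interface3

set_option autoImplicit false

open Finset

namespace Pool.NS

namespace PDT_

open Data

/-- the quadratic form of an equivalence relation is a sum of squares -/
lemma equiv_form {R : Type} (A : Finset R) (r : R → R → Prop) [DecidableRel r]
    (hrefl : ∀ x, r x x) (hsymm : ∀ x y, r x y → r y x) (htrans : ∀ x y z, r x y → r y z → r x z)
    (f : R → ℝ) :
    0 ≤ ∑ x ∈ A, ∑ y ∈ A, f x * f y * (if r x y then (1 : ℝ) else 0) ∧
    ∀ a ∈ A, (∑ y ∈ A.filter (fun y => r a y), f y) ^ 2 ≤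
      ∑ x ∈ A, ∑ y ∈ A, f x * f y * (if r x y then (1 : ℝ) else 0) := by
  classical
  set c : R → Finset R := fun x => A.filter (fun y => r x y) with hc
  have hcc : ∀ x ∈ A, ∀ x' ∈ A, c x' = c x ↔ x' ∈ c x := by
    intro x hx x' hx'
    constructor
    · intro h
      rw [← h]
      exact Finset.mem_filter.2 ⟨hx', hrefl x'⟩
    · intro h
      have h1 : r x x' := (Finset.mem_filter.1 h).2
      apply Finset.ext
      intro y
      simp only [hc, Finset.mem_filter]
      constructor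
      · rintro ⟨h2, h3⟩
        exact ⟨h2, htrans _ _ _ h1 h3⟩
      · rintro ⟨h2, h3⟩
        exact ⟨h2, htrans _ _ _ (hsymm _ _ h1) h3⟩
  have hQ : ∑ x ∈ A, ∑ y ∈ A, f x * f y * (if r x y then (1 : ℝ) else 0)
      = ∑ C ∈ A.image c, (∑ y ∈ C, f y) ^ 2 := by
    have h1 : ∀ x ∈ A, ∑ y ∈ A, f x * f y * (if r x y then (1 : ℝ) else 0)
        = f x * ∑ y ∈ c x, f y := by
      intro x _
      rw [Finset.mul_sum]
      simp only [hc]
      rw [Finset.sum_filter]
      apply Finset.sum_congr rfl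
      intro y _
      split_ifs <;> ring
    rw [Finset.sum_congr rfl h1,
      ← Finset.sum_fiberwise_of_maps_to (t := A.image c) (g := c)
        (fun x hx => Finset.mem_image_of_mem _ hx)]
    apply Finset.sum_congr rfl
    intro C hC
    obtain ⟨x₀, hx₀, rfl⟩ := Finset.mem_image.1 hC
    have h2 : A.filter (fun x => c x = c x₀) = c x₀ := by
      apply Finset.ext
      intro x
      rw [Finset.mem_filter]
      constructor
      · rintro ⟨hx, h3⟩
        exact (hcc x₀ hx₀ x hx).1 h3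
      · intro hx
        have hxA : x ∈ A := (Finset.mem_filter.1 hx).1
        exact ⟨hxA, (hcc x₀ hx₀ x hxA).2 hx⟩
    rw [h2]
    have h3 : ∀ x ∈ c x₀, f x * ∑ y ∈ c x, f y = f x * ∑ y ∈ c x₀, f y := by
      intro x hx
      have hxA : x ∈ A := (Finset.mem_filter.1 hx).1
      rw [(hcc x₀ hx₀ x hxA).2 hx]
    rw [Finset.sum_congr rfl h3, ← Finset.sum_mul, sq]
  rw [hQ]
  constructor
  · exact Finset.sum_nonneg fun _ _ => sq_nonneg _
  · intro a ha
    exact Finset.single_le_sum (f := fun C : Finset R => (∑ y ∈ C, f y) ^ 2)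
      (fun _ _ => sq_nonneg _) (Finset.mem_image_of_mem c ha)

open scoped Classical in
lemma DT_eq {R : Type} [CommRing R] {P : Data R} (A B : Finset R)
    (hB : B ⊆ A) (hA : A.Nonempty) (m : P.T → ℤ) (t : P.T) (Λ : ℤ)
    (hΛ : ∀ x ∈ A, ∀ y ∈ A, P.cap t (m t) (x - y) ≤ Λ) :
    P.DT m A B t = P.lq t * ∑ k ∈ Finset.Ico (m t) Λ, ∑ x ∈ A, ∑ y ∈ A,
      fB A B x * fB A B y * (if P.NearT t k x y then (1 : ℝ) else 0) := by
  have h1 : ∀ x ∈ A, ∀ y ∈ A, (P.cap t (m t) (x - y) : ℝ)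
      = Λ - ∑ k ∈ Finset.Ico (m t) Λ, (if P.NearT t k x y then (1 : ℝ) else 0) := by
    intro x hx y hy
    have h2 := hΛ x hx y hy
    have h3 := P.le_cap t (m t) (x - y)
    have h4 : (Finset.Ico (m t) Λ).filter (fun k => P.NearT t k x y)
        = Finset.Ico (P.cap t (m t) (x - y)) Λ := by
      apply Finset.ext
      intro k
      rw [Finset.mem_filter, Finset.mem_Ico, Finset.mem_Ico]
      constructor
      · rintro ⟨⟨h5, h6⟩, h7⟩
        exact ⟨(nearT_iff_cap h5).1 h7, h6⟩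
      · rintro ⟨h5, h6⟩
        exact ⟨⟨le_trans h3 h5, h6⟩, (nearT_iff_cap (le_trans h3 h5)).2 h5⟩
    rw [Finset.sum_ite, Finset.sum_const_zero, add_zero, Finset.sum_const, h4, Int.card_Ico,
      nsmul_eq_mul, mul_one]
    have h5 : ((Λ - P.cap t (m t) (x - y)).toNat : ℤ) = Λ - P.cap t (m t) (x - y) :=
      Int.toNat_of_nonneg (by linarith)
    have h6 : (((Λ - P.cap t (m t) (x - y)).toNat : ℤ) : ℝ)
        = ((Λ - P.cap t (m t) (x - y) : ℤ) : ℝ) := by rw [h5]
    rw [Int.cast_natCast] at h6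
    rw [h6]
    push_cast
    ring
  have h2 : ∑ x ∈ A, ∑ y ∈ A, fB A B x * fB A B y * (P.cap t (m t) (x - y) : ℝ)
      = - ∑ k ∈ Finset.Ico (m t) Λ, ∑ x ∈ A, ∑ y ∈ A,
      fB A B x * fB A B y * (if P.NearT t k x y then (1 : ℝ) else 0) := by
    have h3 : ∀ x ∈ A, ∀ y ∈ A, fB A B x * fB A B y * (P.cap t (m t) (x - y) : ℝ)
        = Λ * (fB A B x * fB A B y) - ∑ k ∈ Finset.Ico (m t) Λ,
          fB A B x * fB A B y * (if P.NearT t k x y then (1 : ℝ) else 0) := by
      intro x hx y hy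
      rw [h1 x hx y hy, mul_sub, Finset.mul_sum]
      ring
    have h4 : ∑ x ∈ A, ∑ y ∈ A, (Λ : ℝ) * (fB A B x * fB A B y) = 0 := by
      have h5 : ∀ x ∈ A, ∑ y ∈ A, (Λ : ℝ) * (fB A B x * fB A B y) = 0 := by
        intro x _
        rw [← Finset.mul_sum, ← Finset.mul_sum, fB_sum hB hA]
        ring
      exact Finset.sum_eq_zero h5
    rw [Finset.sum_congr rfl fun x hx => Finset.sum_congr rfl fun y hy => h3 x hx y hy]
    rw [Finset.sum_congr rfl fun x _ => Finset.sum_sub_distrib _ _, Finset.sum_sub_distrib, h4,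
      zero_sub]
    congr 1
    rw [Finset.sum_congr rfl fun x _ => Finset.sum_comm, Finset.sum_comm]
  unfold DT
  rw [h2]
  ring

end PDT_

open Data in
theorem stmt_PDT : Stmt_PDT := by
  classical
  intro R _ P C₁ hG A B m t hBA hB
  have hg : P.Geo C₁ := hG.toGeo
  have hA : A.Nonempty := hB.mono hBA
  have hn : 0 < (A.card : ℝ) := by exact_mod_cast Finset.card_pos.2 hA
  have hb : 0 < (B.card : ℝ) := by exact_mod_cast Finset.card_pos.2 hB
  have hform : ∀ k : ℤ, 0 ≤ ∑ x ∈ A, ∑ y ∈ A,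
      fB A B x * fB A B y * (if P.NearT t k x y then (1 : ℝ) else 0) ∧
      ∀ a ∈ A, (∑ y ∈ A.filter (fun y => P.NearT t k a y), fB A B y) ^ 2 ≤
      ∑ x ∈ A, ∑ y ∈ A, fB A B x * fB A B y * (if P.NearT t k x y then (1 : ℝ) else 0) := by
    intro k
    exact PDT_.equiv_form A (fun x y => P.NearT t k x y) (fun x => NearT.refl t k x)
      (fun x y h => hg.nearT_symm h) (fun x y z h h' => hg.nearT_trans h h') (fB A B)
  -- an upper bound for all levels
  have hbd : ∀ l₂ : ℤ, ∃ Λ : ℤ, l₂ ≤ Λ ∧ ∀ x ∈ A, ∀ y ∈ A, P.cap t (m t) (x - y) ≤ Λ := by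
    intro l₂
    have hne : (insert l₂ ((A ×ˢ A).image fun p : R × R => P.cap t (m t) (p.1 - p.2))).Nonempty :=
      Finset.insert_nonempty _ _
    refine ⟨Finset.max' _ hne, Finset.le_max' _ _ (Finset.mem_insert_self _ _), ?_⟩
    intro x hx y hy
    apply Finset.le_max'
    apply Finset.mem_insert_of_mem
    exact Finset.mem_image.2 ⟨(x, y), Finset.mem_product.2 ⟨hx, hy⟩, rfl⟩
  constructor
  · obtain ⟨Λ, -, hΛ⟩ := hbd 0
    rw [PDT_.DT_eq A B hBA hA m t Λ hΛ]
    exact mul_nonneg (hg.lq_pos t).le (Finset.sum_nonneg fun k _ => (hform k).1)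
  · intro θ l l₂ a hθ hml hll hBa hcnt
    obtain ⟨Λ, hΛ₂, hΛ⟩ := hbd l₂
    rw [PDT_.DT_eq A B hBA hA m t Λ hΛ]
    obtain ⟨b₀, hb₀⟩ := hB
    have hk : ∀ k ∈ Finset.Ico l l₂, (θ * (B.card : ℝ)) ^ 2 ≤ ∑ x ∈ A, ∑ y ∈ A,
        fB A B x * fB A B y * (if P.NearT t k x y then (1 : ℝ) else 0) := by
      intro k hk
      obtain ⟨hk1, hk2⟩ := Finset.mem_Ico.1 hk
      refine le_trans ?_ ((hform k).2 b₀ (hBA hb₀))
      apply pow_le_pow_left₀ (mul_nonneg hθ hb.le)
      have hBc : B ⊆ A.filter (fun y => P.NearT t k b₀ y) := by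
        intro b hb
        rw [Finset.mem_filter]
        refine ⟨hBA hb, ?_⟩
        exact (hg.nearT_trans (hBa b₀ hb₀) (hg.nearT_symm (hBa b hb))).mono hk1
      have hcard : ((A.filter (fun y => P.NearT t k b₀ y)).card : ℝ) ≤ (1 - θ) * A.card := by
        refine le_trans ?_ (hcnt b₀)
        unfold cntT
        have : A.filter (fun y => P.NearT t k b₀ y) ⊆ A.filter (fun x => P.NearT t l₂ x b₀) := by
          intro y hy
          rw [Finset.mem_filter] at hy ⊢
          exact ⟨hy.1, (hg.nearT_symm hy.2).mono hk2.le⟩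
        exact_mod_cast Finset.card_le_card this
      have hsum : ∑ y ∈ A.filter (fun y => P.NearT t k b₀ y), fB A B y
          = B.card - ((A.filter (fun y => P.NearT t k b₀ y)).card : ℝ)
            * ((B.card : ℝ) / A.card) := by
        unfold fB
        rw [Finset.sum_sub_distrib, Finset.sum_const, nsmul_eq_mul, Finset.sum_ite_mem,
          Finset.inter_eq_right.2 hBc]
        simp
      rw [hsum]
      have h1 : ((A.filter (fun y => P.NearT t k b₀ y)).card : ℝ) * ((B.card : ℝ) / A.card)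
          ≤ (1 - θ) * A.card * ((B.card : ℝ) / A.card) :=
        mul_le_mul_of_nonneg_right hcard (by positivity)
      have h2 : (1 - θ) * A.card * ((B.card : ℝ) / A.card) = (1 - θ) * B.card := by
        field_simp
      rw [h2] at h1
      linarith
    have h1 : ∑ k ∈ Finset.Ico l l₂, ∑ x ∈ A, ∑ y ∈ A,
        fB A B x * fB A B y * (if P.NearT t k x y then (1 : ℝ) else 0)
        ≤ ∑ k ∈ Finset.Ico (m t) Λ, ∑ x ∈ A, ∑ y ∈ A,
        fB A B x * fB A B y * (if P.NearT t k x y then (1 : ℝ) else 0) := by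
      apply Finset.sum_le_sum_of_subset_of_nonneg
      · exact Finset.Ico_subset_Ico hml hΛ₂
      · intro k _ _
        exact (hform k).1
    have h2 : ((Finset.Ico l l₂).card : ℝ) * (θ * (B.card : ℝ)) ^ 2 ≤ ∑ k ∈ Finset.Ico l l₂,
        ∑ x ∈ A, ∑ y ∈ A,
        fB A B x * fB A B y * (if P.NearT t k x y then (1 : ℝ) else 0) := by
      rw [← nsmul_eq_mul]
      exact Finset.card_nsmul_le_sum _ _ _ hk
    have h3 : ((Finset.Ico l l₂).card : ℝ) = ((l₂ - l : ℤ) : ℝ) := by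
      rw [Int.card_Ico]
      have : ((l₂ - l).toNat : ℤ) = l₂ - l := Int.toNat_of_nonneg (by linarith)
      exact_mod_cast this
    rw [h3] at h2
    rw [mul_assoc]
    exact mul_le_mul_of_nonneg_left (le_trans h2 h1) (hg.lq_pos t).le

end Pool.NS
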