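import Pool.Agent.Work.MP_b29d7f_ns.Interface3

set_option autoImplicit false

open Finset

namespace Pool.NS

namespace T0_

open Data

lemma sum_ff {R : Type} [CommRing R] (A B : Finset R) (hB : B ⊆ A) (k : R → R → ℝ)
    (hk : ∀ x y, k x y = k y x) :
    ∑ x ∈ A, ∑ y ∈ A, fB A B x * fB A B y * k x y
      = ∑ x ∈ B, ∑ y ∈ B, k x y - 2 * ((B.card : ℝ) / A.card) * ∑ x ∈ B, ∑ y ∈ A, k x y
        + ((B.card : ℝ) / A.card) ^ 2 * ∑ x ∈ A, ∑ y ∈ A, k x y := by
  classical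
  have hind : ∀ g : R → ℝ, ∑ x ∈ A, fB A B x * g x
      = ∑ x ∈ B, g x - ((B.card : ℝ) / A.card) * ∑ x ∈ A, g x := by
    intro g
    have h1 : ∀ x ∈ A, fB A B x * g x
        = (if x ∈ B then g x else 0) - ((B.card : ℝ) / A.card) * g x := by
      intro x _
      unfold fB
      split_ifs <;> ring
    rw [Finset.sum_congr rfl h1, Finset.sum_sub_distrib, ← Finset.mul_sum, Finset.sum_ite_mem,
      Finset.inter_eq_right.2 hB]
  have h2 : ∀ x ∈ A, ∑ y ∈ A, fB A B x * fB A B y * k x y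
      = fB A B x * (∑ y ∈ B, k x y - ((B.card : ℝ) / A.card) * ∑ y ∈ A, k x y) := by
    intro x _
    rw [← hind, Finset.mul_sum]
    apply Finset.sum_congr rfl
    intro y _
    ring
  rw [Finset.sum_congr rfl h2, hind, Finset.sum_sub_distrib, Finset.sum_sub_distrib,
    ← Finset.mul_sum, ← Finset.mul_sum]
  have h3 : ∑ x ∈ A, ∑ y ∈ B, k x y = ∑ x ∈ B, ∑ y ∈ A, k x y := by
    rw [Finset.sum_comm]
    apply Finset.sum_congr rfl
    intro x _
    apply Finset.sum_congr rfl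
    intro y _
    exact hk y x
  rw [h3]
  ring

lemma sum_D {R : Type} [CommRing R] (P : Data R) (ρ : P.Ω → ℝ) (m : P.T → ℤ) (A B : Finset R) :
    ∑ v, P.DV ρ A B v + ∑ t, P.DT m A B t
      = -∑ x ∈ A, ∑ y ∈ A, fB A B x * fB A B y * P.kap ρ m (x - y) := by
  have h1 : ∑ v, P.DV ρ A B v = ∑ x ∈ A, ∑ y ∈ A, ∑ v, -(fB A B x * fB A B y *
      ((P.e v : ℝ) * (Real.log (‖P.em (x - y) v‖ ^ 2 + ρ v ^ 2) / 2))) := by
    have h : ∀ v ∈ (Finset.univ : Finset P.Ω), P.DV ρ A B v = ∑ x ∈ A, ∑ y ∈ A,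
        -(fB A B x * fB A B y *
          ((P.e v : ℝ) * (Real.log (‖P.em (x - y) v‖ ^ 2 + ρ v ^ 2) / 2))) := by
      intro v _
      unfold DV
      rw [Finset.mul_sum]
      apply Finset.sum_congr rfl
      intro x _
      rw [Finset.mul_sum]
      apply Finset.sum_congr rfl
      intro y _
      ring
    rw [Finset.sum_congr rfl h, Finset.sum_comm]
    apply Finset.sum_congr rfl
    intro x _
    rw [Finset.sum_comm]
  have h2 : ∑ t, P.DT m A B t = ∑ x ∈ A, ∑ y ∈ A, ∑ t, -(fB A B x * fB A B y *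
      (P.lq t * (P.cap t (m t) (x - y) : ℝ))) := by
    have h : ∀ t ∈ (Finset.univ : Finset P.T), P.DT m A B t = ∑ x ∈ A, ∑ y ∈ A,
        -(fB A B x * fB A B y * (P.lq t * (P.cap t (m t) (x - y) : ℝ))) := by
      intro t _
      unfold DT
      rw [Finset.mul_sum]
      apply Finset.sum_congr rfl
      intro x _
      rw [Finset.mul_sum]
      apply Finset.sum_congr rfl
      intro y _
      ring
    rw [Finset.sum_congr rfl h, Finset.sum_comm]
    apply Finset.sum_congr rfl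
    intro x _
    rw [Finset.sum_comm]
  rw [h1, h2, ← Finset.sum_add_distrib, ← Finset.sum_neg_distrib]
  apply Finset.sum_congr rfl
  intro x _
  rw [← Finset.sum_add_distrib, ← Finset.sum_neg_distrib]
  apply Finset.sum_congr rfl
  intro y _
  unfold kap
  rw [mul_add, Finset.mul_sum, Finset.mul_sum, neg_add, Finset.sum_neg_distrib,
    Finset.sum_neg_distrib]

end T0_

open Data in
theorem stmt_T0 : Stmt_T0 := by
  intro R _ P C₁ hG
  have hg : P.Geo C₁ := hG.toGeo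
  refine ⟨4 * C₁, by linarith [hg.C₁_nonneg], ?_⟩
  intro A L hO ρ m hρ B hBA hB
  have hn : 0 < (A.card : ℝ) := by exact_mod_cast Finset.card_pos.2 hO.ne
  have hb : 0 < (B.card : ℝ) := by exact_mod_cast Finset.card_pos.2 hB
  have hbn : (B.card : ℝ) ≤ A.card := by exact_mod_cast Finset.card_le_card hBA
  rw [T0_.sum_D, T0_.sum_ff A B hBA (fun x y => P.kap ρ m (x - y)) (fun x y => hg.kap_symm ρ m x y)]
  have e1 := hg.En_eq hρ m B
  have e2 := hg.En_eq hρ m A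
  have e3 : ∑ x ∈ B, ∑ b ∈ A, P.ln (x - b) = ∑ x ∈ B, ∑ b ∈ A, P.kap ρ m (x - b)
      - B.card * P.deg ρ m - ∑ x ∈ B, ∑ b ∈ A, P.gap ρ m (x - b) := by
    rw [Finset.sum_congr rfl fun x hx => hg.sum_ln hρ m (hBA hx), Finset.sum_sub_distrib,
      Finset.sum_sub_distrib, Finset.sum_const, nsmul_eq_mul]
  have l1 := hG.low B hB
  have l2 := hG.low A hO.ne
  have l3 : ∑ x ∈ B, ∑ b ∈ A, P.ln (x - b)
      ≤ (B.card : ℝ) * (A.card * (Real.log A.card + C₁)) := by
    rw [← nsmul_eq_mul]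
    exact Finset.sum_le_card_nsmul _ _ _ fun x hx => hO.pot x (hBA hx)
  have l4 := hg.Gp_nonneg ρ m A
  set b : ℝ := (B.card : ℝ) with hbdef
  set n : ℝ := (A.card : ℝ) with hndef
  set d := P.deg ρ m
  set SBB := ∑ x ∈ B, ∑ y ∈ B, P.kap ρ m (x - y)
  set SBA := ∑ x ∈ B, ∑ y ∈ A, P.kap ρ m (x - y)
  set SAA := ∑ x ∈ A, ∑ y ∈ A, P.kap ρ m (x - y)
  set G := ∑ x ∈ B, ∑ b ∈ A, P.gap ρ m (x - b)
  set PB := ∑ x ∈ B, ∑ b ∈ A, P.ln (x - b)
  have hlog : Real.log (n / b) = Real.log n - Real.log b := Real.log_div hn.ne' hb.ne'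
  rw [hlog]
  obtain ⟨β, hβ⟩ : ∃ β : ℝ, β = b / n := ⟨_, rfl⟩
  rw [← hβ]
  have hβn : β * n = b := by rw [hβ]; field_simp
  have hβ0 : 0 ≤ β := by rw [hβ]; positivity
  have hβ1 : β ≤ 1 := by rw [hβ, div_le_one hn]; exact hbn
  have k1 : 2 * β * PB ≤ 2 * b ^ 2 * (Real.log n + C₁) := by
    have := mul_le_mul_of_nonneg_left l3 (by positivity : 0 ≤ 2 * β)
    calc 2 * β * PB ≤ 2 * β * (b * (n * (Real.log n + C₁))) := this
      _ = 2 * b * (β * n) * (Real.log n + C₁) := by ring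
      _ = 2 * b ^ 2 * (Real.log n + C₁) := by rw [hβn]; ring
  have k2 : b ^ 2 * (Real.log n - C₁) ≤ β ^ 2 * P.En A := by
    have := mul_le_mul_of_nonneg_left l2 (by positivity : 0 ≤ β ^ 2)
    calc b ^ 2 * (Real.log n - C₁) = (β * n) ^ 2 * (Real.log n - C₁) := by rw [hβn]
      _ = β ^ 2 * (n ^ 2 * (Real.log n - C₁)) := by ring
      _ ≤ _ := this
  have k3 : -(b * (1 - β) * d) ≤ max 0 (-d) * b := by
    have h1 : -d ≤ max 0 (-d) := le_max_right _ _
    have h0 : 0 ≤ max 0 (-d) := le_max_left _ _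
    have h2 : b * (1 - β) * (-d) ≤ b * (1 - β) * max 0 (-d) :=
      mul_le_mul_of_nonneg_left h1 (mul_nonneg hb.le (by linarith))
    have h3 : b * (1 - β) * max 0 (-d) ≤ b * 1 * max 0 (-d) :=
      mul_le_mul_of_nonneg_right (mul_le_mul_of_nonneg_left (by linarith) hb.le) h0
    nlinarith
  have k4 : 0 ≤ β ^ 2 * P.Gp ρ m A := by positivity
  have hSBB : SBB = P.En B + b * d + P.Gp ρ m B := by linarith
  have hSBA : SBA = PB + b * d + G := by linarith
  have hSAA : SAA = P.En A + n * d + P.Gp ρ m A := by linarith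
  have key : P.Gp ρ m B + -(SBB - 2 * β * SBA + β ^ 2 * SAA)
      = -P.En B + 2 * β * PB - β ^ 2 * P.En A - b * (1 - β) * d - β ^ 2 * P.Gp ρ m A
        + 2 * β * G := by
    rw [hSBB, hSBA, hSAA]
    have : β ^ 2 * (n * d) = β * b * d := by rw [← hβn]; ring
    linear_combination (-1 : ℝ) * this
  rw [key]
  nlinarith [k1, k2, k3, k4, l1]

end Pool.NS
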